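import Pool.Agent.W251.EX.Defs
import Pool.Agent.W613.FP.Eleq
import Pool.Agent.W320.FP.Twq

/-!
# EX-MRX: the Matomaki-Radziwill theorem in all residue classes
-/

set_option autoImplicit false

namespace Pool.Agent.W378.EX

open Finset
open Pool.Agent.H376R2.MR (FK)
open Pool.Agent.W78.GA (Qd nm prim Ele DPG pball ps)
open Pool.Agent.W78.EC (Gi Rw)
open Pool.Agent.W84.FP (c1)
open Pool.Agent.W251.GX (Cm)
open Pool.Agent.W251.EX

open scoped Classical in
/-- the indicator function of `S` -/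
noncomputable def iS (S : Gi → Prop) (z : Gi) : ℂ := if S z then 1 else 0

theorem iS_congr {S : Gi → Prop} {z z' : Gi} (h : S z ↔ S z') : iS S z = iS S z' := by
  unfold iS
  by_cases h1 : S z
  · rw [if_pos h1, if_pos (h.1 h1)]
  · rw [if_neg h1, if_neg (fun h2 => h1 (h.2 h2))]

theorem iS_norm (S : Gi → Prop) (z : Gi) : ‖iS S z‖ ≤ 1 := by
  unfold iS
  split_ifs <;> simp

/-- the component of the indicator function of `S` with the character `χ` -/
noncomputable def sc (Q : ℕ) [NeZero Q] (S : Gi → Prop) (χ : DirichletCharacter ℂ Q) (z : Gi) :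
    ℂ := (1 / (Q.totient : ℂ)) * ∑ x : (ZMod Q)ˣ, χ ((x⁻¹ : (ZMod Q)ˣ) : ZMod Q) *
      iS S ((((x : ZMod Q).val : ℤ) : Gi) * z)

variable {Q : ℕ} [NeZero Q] {S : Gi → Prop}

omit [NeZero Q] in
theorem per_int (hS : Per Q S) {a b : ℤ} (h : (a : ZMod Q) = (b : ZMod Q)) (z : Gi) :
    S ((a : Gi) * z) ↔ S ((b : Gi) * z) := by
  have h' : (Q : ℤ) ∣ b - a := (ZMod.intCast_eq_intCast_iff_dvd_sub a b Q).1 h
  obtain ⟨k, hk⟩ := h'
  apply hS
  · refine ⟨-(k * z.re), ?_⟩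
    simp only [QuadraticAlgebra.re_mul, QuadraticAlgebra.re_intCast,
      QuadraticAlgebra.im_intCast, Int.cast_id]
    linear_combination (-z.re) * hk
  · refine ⟨-(k * z.im), ?_⟩
    simp only [QuadraticAlgebra.im_mul, QuadraticAlgebra.re_intCast,
      QuadraticAlgebra.im_intCast, Int.cast_id]
    linear_combination (-z.im) * hk

theorem sc_per (hS : Per Q S) (χ : DirichletCharacter ℂ Q) {z z' : Gi}
    (h1 : (Q : ℤ) ∣ z.re - z'.re) (h2 : (Q : ℤ) ∣ z.im - z'.im) : sc Q S χ z = sc Q S χ z' := by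
  unfold sc
  congr 1
  refine Finset.sum_congr rfl fun x _ => ?_
  congr 1
  apply iS_congr
  obtain ⟨k, hk⟩ := h1
  obtain ⟨l, hl⟩ := h2
  apply hS
  · refine ⟨((x : ZMod Q).val : ℤ) * k, ?_⟩
    simp only [QuadraticAlgebra.re_mul, QuadraticAlgebra.re_intCast,
      QuadraticAlgebra.im_intCast, Int.cast_id]
    linear_combination (((x : ZMod Q).val : ℤ)) * hk
  · refine ⟨((x : ZMod Q).val : ℤ) * l, ?_⟩
    simp only [QuadraticAlgebra.im_mul, QuadraticAlgebra.re_intCast,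
      QuadraticAlgebra.im_intCast, Int.cast_id]
    linear_combination (((x : ZMod Q).val : ℤ)) * hl

theorem sc_scal (hS : Per Q S) (χ : DirichletCharacter ℂ Q) {y : ℤ} (hy : IsUnit (y : ZMod Q))
    (z : Gi) : sc Q S χ ((y : Gi) * z) = χ (y : ZMod Q) * sc Q S χ z := by
  obtain ⟨u, hu⟩ := hy
  unfold sc
  rw [mul_left_comm]
  congr 1
  rw [Finset.mul_sum]
  refine Fintype.sum_equiv (Equiv.mulRight u) _ _ fun x => ?_
  rw [← mul_assoc (χ (y : ZMod Q))]
  congr 1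
  · rw [← map_mul, Equiv.coe_mulRight, ← hu, ← Units.val_mul]
    congr 2
    rw [mul_inv, mul_comm x⁻¹, mul_inv_cancel_left]
  · rw [← mul_assoc, ← Int.cast_mul]
    apply iS_congr
    apply per_int hS
    rw [Equiv.coe_mulRight, Int.cast_mul, Int.cast_natCast, Int.cast_natCast,
      ZMod.natCast_zmod_val, ZMod.natCast_zmod_val, Units.val_mul, hu]

theorem sc_norm (χ : DirichletCharacter ℂ Q) (z : Gi) : ‖sc Q S χ z‖ ≤ 1 := by
  have hQ : 0 < Q.totient := Nat.totient_pos.2 (Nat.pos_of_ne_zero (NeZero.ne Q))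
  unfold sc
  rw [norm_mul, norm_div, norm_one, Complex.norm_natCast]
  have h1 : ‖∑ x : (ZMod Q)ˣ, χ ((x⁻¹ : (ZMod Q)ˣ) : ZMod Q) *
      iS S ((((x : ZMod Q).val : ℤ) : Gi) * z)‖ ≤ Q.totient := by
    refine (norm_sum_le _ _).trans ?_
    refine (Finset.sum_le_card_nsmul _ _ 1 ?_).trans ?_
    · intro x _
      rw [norm_mul]
      exact mul_le_one₀ (χ.norm_le_one _) (norm_nonneg _) (iS_norm _ _)
    · rw [Finset.card_univ, ZMod.card_units_eq_totient, nsmul_eq_mul, mul_one]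
  have h2 : (0 : ℝ) < Q.totient := by exact_mod_cast hQ
  calc 1 / (Q.totient : ℝ) * _ ≤ 1 / (Q.totient : ℝ) * Q.totient :=
        mul_le_mul_of_nonneg_left h1 (by positivity)
    _ = 1 := by field_simp

theorem sc_sum (hS : Per Q S) (z : Gi) :
    ∑ χ : DirichletCharacter ℂ Q, sc Q S χ z = iS S z := by
  have hQ : 0 < Q.totient := Nat.totient_pos.2 (Nat.pos_of_ne_zero (NeZero.ne Q))
  have hQ' : (Q.totient : ℂ) ≠ 0 := by exact_mod_cast hQ.ne'
  unfold sc
  rw [← Finset.mul_sum, Finset.sum_comm]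
  have h1 : ∀ x : (ZMod Q)ˣ, ∑ χ : DirichletCharacter ℂ Q,
      χ ((x⁻¹ : (ZMod Q)ˣ) : ZMod Q) * iS S ((((x : ZMod Q).val : ℤ) : Gi) * z) =
      if x = 1 then (Q.totient : ℂ) * iS S z else 0 := by
    intro x
    rw [← Finset.sum_mul, DirichletCharacter.sum_characters_eq]
    by_cases hx : x = 1
    · subst hx
      rw [if_pos (by simp), if_pos rfl]
      congr 1
      have h2 := per_int hS (a := (((1 : (ZMod Q)ˣ) : ZMod Q).val : ℤ)) (b := 1) (by
        rw [Int.cast_natCast, ZMod.natCast_zmod_val, Units.val_one, Int.cast_one]) z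
      rw [iS_congr h2, Int.cast_one, one_mul]
    · rw [if_neg hx, if_neg, zero_mul]
      intro h
      apply hx
      rw [← inv_eq_one]
      exact Units.ext (by rw [h, Units.val_one])
  rw [Finset.sum_congr rfl fun x _ => h1 x, Finset.sum_ite_eq' Finset.univ (1 : (ZMod Q)ˣ),
    if_pos (Finset.mem_univ _), ← mul_assoc, one_div, inv_mul_cancel₀ hQ', one_mul]

theorem prim_ne {z : Gi} (h : prim z) : z ≠ 0 := by
  rintro rfl
  unfold prim at h
  simp at h

theorem nm_zero' : nm (0 : Gi) = 0 := by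
  unfold nm
  simp

open scoped Classical in
/-- the twisted function -/
noncomputable def F' (Q : ℕ) [NeZero Q] (F : Gi → ℂ) (χ : DirichletCharacter ℂ Q) (z : Gi) : ℂ :=
  F z * (if IsUnit ((z.re : ℤ) : ZMod Q) then χ ((z.re : ℤ) : ZMod Q) else 1)

theorem cm_norm {N : ℕ} {F : Gi → ℂ} (hF : Cm N F) (z : Gi) : ‖F z‖ = 1 :=
  Complex.norm_eq_one_of_pow_eq_one (hF.pow z) (by have := hF.pos; omega)

theorem cm_one {N : ℕ} {F : Gi → ℂ} (hF : Cm N F) : F 1 = 1 := by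
  have h1 := hF.mul 1 1 one_ne_zero one_ne_zero
  rw [one_mul] at h1
  have h2 : F 1 ≠ 0 := by
    intro h
    have := cm_norm hF 1
    rw [h, norm_zero] at this
    exact zero_ne_one this
  exact (mul_eq_left₀ h2).1 h1.symm

theorem F'_pow {N : ℕ} {F : Gi → ℂ} (hF : Cm N F) (χ : DirichletCharacter ℂ Q) (z : Gi) :
    F' Q F χ z ^ (N * Q.totient) = 1 := by
  classical
  unfold F'
  rw [mul_pow, pow_mul, hF.pow z, one_pow, one_mul]
  split_ifs with h
  · obtain ⟨u, hu⟩ := h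
    rw [← hu, ← map_pow, mul_comm, pow_mul, ← Units.val_pow_eq_pow_val, ZMod.pow_totient,
      Units.val_one, one_pow, map_one]
  · rw [one_pow]

theorem tx (hS : Per Q S) {Ap Bp M : ℕ → Prop} {E : ℕ} {ρ : ℕ → ℤ} {ϖ : ℕ → Gi}
    (hE : Ele 0 1 Ap Bp M E ρ ϖ)
    (hAB : ∀ p, Ap p ∨ Bp p → Nat.Coprime p Q ∧ p % 4 = 1) (hc : ∀ m, M m → c1 Q (ϖ m))
    {N : ℕ} {F : Gi → ℂ} (hF : Cm N F) (χ : DirichletCharacter ℂ Q) :
    Tx M ϖ (F' Q F χ) (fun n => F (n : Gi) * χ (n : ZMod Q)) (fun z => sc Q S χ z * F z) where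
  bd := fun z => by
    rw [norm_mul, cm_norm hF, mul_one]
    exact sc_norm χ z
  bb := fun n => by
    rw [norm_mul, cm_norm hF, one_mul]
    exact χ.norm_le_one _
  one := by
    rw [Nat.cast_one, Nat.cast_one, cm_one hF, map_one, one_mul]
  mul := by
    classical
    intro m n u z hm hnm hu hz heq
    obtain ⟨p, p', hp, hp', hmp, _, _⟩ := hE.fac m hm
    have pp := (hE.prA p hp).1
    have pp' := (hE.prB p' hp').1
    have hn : Nat.Coprime n Q ∧ n % 4 = 1 :=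
      Pool.Agent.W320.FP.dvd_two pp pp' (hAB p (Or.inl hp)) (hAB p' (Or.inr hp'))
        (by rw [← hmp]; exact hnm)
    obtain ⟨⟨y, hy⟩, hx, hx4⟩ := hc m hm
    have hnm' := (hE.elt m hm).1
    have hm0 : m ≠ 0 := by rw [hmp]; exact Nat.mul_ne_zero pp.ne_zero pp'.ne_zero
    have hϖ : ϖ m ≠ 0 := by
      intro h
      rw [h, nm_zero'] at hnm'
      exact hm0 hnm'.symm
    have hn0 : (n : Gi) ≠ 0 := by
      intro h
      have h1 : ((n : Gi)).re = (0 : Gi).re := by rw [h]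
      rw [QuadraticAlgebra.re_natCast, QuadraticAlgebra.re_zero] at h1
      have h2 : n = 0 := by exact_mod_cast h1
      rw [h2] at hn
      omega
    -- the functions `F`
    have e1 : F (ϖ m) * F u = F (n : Gi) * F z := by
      rw [← hF.mul _ _ hϖ (prim_ne hu), ← hF.mul _ _ hn0 (prim_ne hz), heq]
    -- the functions `sc`
    have hxu : IsUnit (((ϖ m).re : ℤ) : ZMod Q) :=
      (ZMod.coe_int_isUnit_iff_isCoprime _ _).2 hx.symm
    have hnu : IsUnit (((n : ℤ)) : ZMod Q) :=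
      (ZMod.coe_int_isUnit_iff_isCoprime _ _).2 (Nat.isCoprime_iff_coprime.2 hn.1).symm
    have e2 : sc Q S χ (ϖ m * u) = χ (((ϖ m).re : ℤ) : ZMod Q) * sc Q S χ u := by
      rw [← sc_scal hS χ hxu u]
      apply sc_per hS
      · refine ⟨-(y * u.im), ?_⟩
        simp only [QuadraticAlgebra.re_mul, QuadraticAlgebra.re_intCast,
          QuadraticAlgebra.im_intCast, Int.cast_id]
        rw [hy]
        ring
      · refine ⟨y * u.re, ?_⟩
        simp only [QuadraticAlgebra.im_mul, QuadraticAlgebra.re_intCast,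
          QuadraticAlgebra.im_intCast, Int.cast_id]
        rw [hy]
        ring
    have e3 : sc Q S χ ((n : Gi) * z) = χ (n : ZMod Q) * sc Q S χ z := by
      have h := sc_scal hS χ hnu z
      rw [Int.cast_natCast, Int.cast_natCast] at h
      exact h
    rw [heq, e3] at e2
    have e4 : F' Q F χ (ϖ m) = F (ϖ m) * χ (((ϖ m).re : ℤ) : ZMod Q) := by
      unfold F'
      rw [if_pos hxu]
    rw [e4]
    linear_combination (χ (((ϖ m).re : ℤ) : ZMod Q) * sc Q S χ u) * e1 -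
      (F (n : Gi) * F z) * e2

theorem GW_sum (wt : ℝ → ℝ) (hS : Per Q S) (F : Gi → ℂ) (Y : ℝ) (k : ℤ) :
    GW wt (FS S F) Y k = ∑ χ : DirichletCharacter ℂ Q, GW wt (fun z => sc Q S χ z * F z) Y k := by
  classical
  unfold GW DPG
  rw [Finset.sum_comm]
  refine Finset.sum_congr rfl fun z _ => ?_
  rw [← Finset.sum_mul, ← Finset.sum_mul, ← Finset.sum_mul, sc_sum hS]
  unfold FS iS
  by_cases hz : S z
  · simp only [hz, if_true, one_mul]
  · simp only [hz, if_false, zero_mul]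

theorem FK_mono {a b : ℕ} (h : a ≤ b) : FK a ⊆ FK b := by
  unfold FK
  intro x hx
  rw [mem_Ioo] at hx ⊢
  omega

theorem per_mul {M : ℕ} {S : Gi → Prop} (h : Per M S) (a : ℕ) : Per (a * M) S := by
  intro z z' h1 h2
  have h3 : (M : ℤ) ∣ ((a * M : ℕ) : ℤ) := by
    rw [Nat.cast_mul]
    exact Dvd.intro_left _ rfl
  exact h z z' (h3.trans h1) (h3.trans h2)

theorem mrx (h : S_MRG 0 1) : S_MRX := by
  classical
  intro N F hF M S hM hS Λ wt hw η hη
  have : NeZero (4 * M) := ⟨by omega⟩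
  have hS' : Per (4 * M) S := per_mul hS 4
  obtain ⟨Ap, Bp, M', E, ρ, ϖ, hE, hp, hc⟩ := Pool.Agent.W613.FP.eleq (4 * M) (by omega)
    (Dvd.intro _ rfl)
  have hn0 : 0 < Fintype.card (DirichletCharacter ℂ (4 * M)) := Fintype.card_pos
  obtain ⟨n, hn⟩ : ∃ n : ℝ, n = (Fintype.card (DirichletCharacter ℂ (4 * M)) : ℝ) := ⟨_, rfl⟩
  have hnpos : 0 < n := by rw [hn]; exact_mod_cast hn0
  have hpow : 1 ≤ N * (4 * M).totient :=
    Nat.mul_pos hF.pos (Nat.totient_pos.2 (by omega))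
  have key : ∀ χ : DirichletCharacter ℂ (4 * M), ∃ h : ℝ, 1 ≤ h ∧ ∃ Y₀ : ℝ, ∀ Y : ℝ, Y₀ ≤ Y →
      ∑ k ∈ (FK ⌊Y / h⌋₊).erase 0, ‖GW wt (fun z => sc (4 * M) S χ z * F z) Y k‖ ^ 2 ≤
        η / n ^ 2 := fun χ =>
    h Ap Bp M' E ρ ϖ hE _ (F' (4 * M) F χ) _ _ hpow (F'_pow hF χ) (tx hS' hE hp hc hF χ) Λ wt hw
      (η / n ^ 2) (by positivity)
  choose hh hh1 Y₀ hY using key
  refine ⟨∑ χ, hh χ, ?_, ∑ χ, |Y₀ χ|, ?_⟩
  · obtain ⟨χ₀⟩ : Nonempty (DirichletCharacter ℂ (4 * M)) := Fintype.card_pos_iff.1 hn0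
    exact (hh1 χ₀).trans (Finset.single_le_sum (f := hh)
      (fun χ _ => zero_le_one.trans (hh1 χ)) (Finset.mem_univ χ₀))
  · intro Y hYY
    have hY0 : 0 ≤ Y := (Finset.sum_nonneg fun χ _ => abs_nonneg (Y₀ χ)).trans hYY
    have hle : ∀ χ, hh χ ≤ ∑ χ, hh χ := fun χ => Finset.single_le_sum (f := hh)
      (fun χ _ => zero_le_one.trans (hh1 χ)) (Finset.mem_univ χ)
    have hYle : ∀ χ, Y₀ χ ≤ Y := fun χ => (le_abs_self _).trans
      ((Finset.single_le_sum (f := fun χ => |Y₀ χ|) (fun χ _ => abs_nonneg _)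
        (Finset.mem_univ χ)).trans hYY)
    have h1 : ∀ k : ℤ, ‖GW wt (FS S F) Y k‖ ^ 2 ≤
        n * ∑ χ : DirichletCharacter ℂ (4 * M),
          ‖GW wt (fun z => sc (4 * M) S χ z * F z) Y k‖ ^ 2 := by
      intro k
      rw [GW_sum wt hS' F Y k]
      refine (pow_le_pow_left₀ (norm_nonneg _) (norm_sum_le _ _) 2).trans ?_
      have := sq_sum_le_card_mul_sum_sq (s := (Finset.univ : Finset (DirichletCharacter ℂ (4 * M))))
        (f := fun χ => ‖GW wt (fun z => sc (4 * M) S χ z * F z) Y k‖)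
      rw [Finset.card_univ, ← hn] at this
      exact this
    calc ∑ k ∈ (FK ⌊Y / ∑ χ, hh χ⌋₊).erase 0, ‖GW wt (FS S F) Y k‖ ^ 2
        ≤ ∑ k ∈ (FK ⌊Y / ∑ χ, hh χ⌋₊).erase 0, n * ∑ χ : DirichletCharacter ℂ (4 * M),
          ‖GW wt (fun z => sc (4 * M) S χ z * F z) Y k‖ ^ 2 :=
          Finset.sum_le_sum fun k _ => h1 k
      _ = n * ∑ χ : DirichletCharacter ℂ (4 * M), ∑ k ∈ (FK ⌊Y / ∑ χ, hh χ⌋₊).erase 0,
          ‖GW wt (fun z => sc (4 * M) S χ z * F z) Y k‖ ^ 2 := by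
          rw [← Finset.mul_sum, Finset.sum_comm]
      _ ≤ n * ∑ χ : DirichletCharacter ℂ (4 * M), η / n ^ 2 := by
          refine mul_le_mul_of_nonneg_left (Finset.sum_le_sum fun χ _ => ?_) hnpos.le
          refine (Finset.sum_le_sum_of_subset_of_nonneg ?_ fun _ _ _ => by positivity).trans
            (hY χ Y (hYle χ))
          refine Finset.erase_subset_erase _ (FK_mono ?_)
          apply Nat.floor_le_floor
          exact div_le_div_of_nonneg_left hY0 (by have := hh1 χ; linarith) (hle χ)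
      _ = η := by
          rw [Finset.sum_const, Finset.card_univ, nsmul_eq_mul, ← hn]
          field_simp

end Pool.Agent.W378.EX
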